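import Mathlib
import Pool.Agent.U180.DP.Stm2
import Pool.Agent.U890.DP.DENS
import Pool.Agent.U638.DP.PI

/-! Project DP, second part, package PREC: the mean number of displaced primes in a short interval,
with relative error smaller than the reciprocal of the logarithm. -/

set_option autoImplicit false

open Finset Filter Topology

namespace Pool.Agent.U603.DP

open Pool.Agent.U180.DP Pool.Agent.U890.DP Pool.Agent.U638.DP Pool.Agent.H442R2.EHI

/-- the sizes which are needed for the count of the primes -/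
theorem largeP {A e K : ℝ} (hA : 0 < A) (he : 0 < e) : ∀ᶠ x : ℝ in atTop,
    8 ≤ Real.log x ∧ 16 ≤ e * Real.log x ^ A ∧ 16 * Real.log x ^ (A + 1) ≤ e * x ∧ 6 ≤ x ∧
      K ≤ e * Real.log x := by
  have h1 : ∀ᶠ x : ℝ in atTop, 8 ≤ Real.log x := Real.tendsto_log_atTop.eventually_ge_atTop 8
  have h2 : ∀ᶠ x : ℝ in atTop, 16 / e ≤ Real.log x ^ A :=
    ((tendsto_rpow_atTop hA).comp Real.tendsto_log_atTop).eventually_ge_atTop (16 / e)
  have h4 : ∀ᶠ x : ℝ in atTop, K / e ≤ Real.log x :=
    Real.tendsto_log_atTop.eventually_ge_atTop (K / e)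
  have h3 := (isLittleO_log_rpow_rpow_atTop (A + 1) (zero_lt_one)).bound
    (show 0 < e / 16 by positivity)
  filter_upwards [h1, h2, eventually_ge_atTop 6, h3, h4] with x h1 h2 h5 h6 h7
  refine ⟨h1, ?_, ?_, h5, ?_⟩
  · rw [div_le_iff₀ he] at h2
    linarith
  · rw [Real.rpow_one, Real.norm_of_nonneg (by linarith : (0 : ℝ) ≤ x),
      Real.norm_of_nonneg (Real.rpow_nonneg (by linarith) _)] at h6
    linarith
  · rw [div_le_iff₀ he] at h7
    linarith

/-- the number of primes in intervals of length about `x / (log x)^A`, precise form -/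
theorem primes {A e : ℝ} (hA : 0 < A) (he : 0 < e) (he1 : e ≤ 1) : ∃ X₀ : ℝ, ∀ x z : ℝ, X₀ ≤ x →
    x / Real.log x ^ A / 2 ≤ z → z ≤ x / Real.log x ^ A →
    |(((Finset.range (⌊x⌋₊ + 1)).filter fun p : ℕ => p.Prime ∧ x - z < p).card : ℝ) -
      z / Real.log x| ≤ e / Real.log x * (z / Real.log x) := by
  obtain ⟨U, hU⟩ : ∃ U : ℕ, A + 3 ≤ U := exists_nat_ge _
  obtain ⟨C, hC⟩ := pnt_err U
  obtain ⟨X₀, h⟩ := eventually_atTop.1 (largeP (K := 16 * |C| * 2 ^ U) hA he)
  refine ⟨X₀, fun x z hx hz1 hz2 => ?_⟩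
  obtain ⟨g1, g2, g3, g4, g5⟩ := h x hx
  set L := Real.log x with hL
  have hL0 : 0 < L := by linarith
  have hx0 : 0 < x := by linarith
  have hLA : 0 < L ^ A := Real.rpow_pos_of_pos hL0 A
  have hh0 : 0 < x / L ^ A := div_pos hx0 hLA
  have hz0 : 0 < z := by linarith
  have hLA16 : 16 ≤ L ^ A := by nlinarith
  -- `16 L ≤ e (x / L^A)`
  have hzL : 8 * L ≤ e * z := by
    have : 16 * L ≤ e * (x / L ^ A) := by
      rw [← mul_div_assoc, le_div_iff₀ hLA]
      rw [Real.rpow_add hL0, Real.rpow_one] at g3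
      linarith
    nlinarith
  have hzx : 16 * z ≤ e * x := by
    have h1 : 16 * z ≤ 16 * (x / L ^ A) := by linarith
    have h2 : 16 * (x / L ^ A) ≤ e * x := by
      rw [← mul_div_assoc, div_le_iff₀ hLA]
      nlinarith
    linarith
  have hz4 : z ≤ x / 16 := by nlinarith
  rw [card_eq x z g4 hz0.le (by linarith)]
  set N := ⌊x⌋₊ with hN
  set M := ⌊x - z⌋₊ with hM
  have hN1 : (N : ℝ) ≤ x := Nat.floor_le hx0.le
  have hN2 : x < N + 1 := Nat.lt_floor_add_one x
  have hM1 : (M : ℝ) ≤ x - z := Nat.floor_le (by linarith)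
  have hM2 : x - z < M + 1 := Nat.lt_floor_add_one _
  have hM3 : 2 ≤ M := by
    have : (1 : ℝ) < M := by linarith
    have : 1 < M := by exact_mod_cast this
    omega
  have hMN : M ≤ N := Nat.floor_le_floor (by linarith)
  have hlog2 : Real.log 2 < 0.7 := lt_trans Real.log_two_lt_d9 (by norm_num)
  have hlog2p : 0 < Real.log 2 := Real.log_pos (by norm_num)
  have hlx4 : Real.log (x / 4) = L - 2 * Real.log 2 := by
    rw [Real.log_div hx0.ne' (by norm_num), show (4 : ℝ) = 2 ^ 2 by norm_num, Real.log_pow, hL]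
    push_cast
    ring
  -- logs of `N` and `M`
  have hlN : L / 2 ≤ Real.log N := by
    have : Real.log (x / 4) ≤ Real.log N := Real.log_le_log (by linarith) (by linarith)
    linarith
  have hlM : L / 2 ≤ Real.log M := by
    have : Real.log (x / 4) ≤ Real.log M := Real.log_le_log (by linarith) (by linarith)
    linarith
  -- the error terms
  have hxU : x / L ^ U ≤ 2 * (z / L ^ 3) := by
    have a1 : L ^ A * L ^ 3 ≤ L ^ U := by
      have : L ^ (A + 3) ≤ L ^ (U : ℝ) := Real.rpow_le_rpow_of_exponent_le (by linarith) hU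
      rw [Real.rpow_natCast, Real.rpow_add hL0] at this
      have e3 : L ^ (3 : ℝ) = L ^ 3 := by
        rw [← Real.rpow_natCast]; norm_num
      rw [e3] at this
      exact this
    calc x / L ^ U ≤ x / (L ^ A * L ^ 3) := by gcongr
      _ = x / L ^ A / L ^ 3 := by rw [div_div]
      _ ≤ (2 * z) / L ^ 3 := by
        have : x / L ^ A ≤ 2 * z := by linarith
        gcongr
      _ = 2 * (z / L ^ 3) := by ring
  have err : ∀ y : ℕ, 2 ≤ y → (y : ℝ) ≤ x → L / 2 ≤ Real.log y →
      |(((Icc 1 y).filter (fun p : ℕ => p.Prime)).card : ℝ) - lis y| ≤ e / 8 * (z / L ^ 2) := by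
    intro y hy hyx hyL
    refine (hC y hy).trans ?_
    have b1 : (0 : ℝ) < (L / 2) ^ U := by positivity
    have b2 : (L / 2) ^ U ≤ Real.log y ^ U := by gcongr
    have b3 : (0 : ℝ) < Real.log y ^ U := lt_of_lt_of_le b1 b2
    have b4 : C * y ≤ |C| * x := by
      calc C * y ≤ |C| * y := by gcongr; exact le_abs_self C
        _ ≤ |C| * x := by gcongr
    calc C * y / Real.log y ^ U ≤ |C| * x / Real.log y ^ U := by gcongr
      _ ≤ |C| * x / (L / 2) ^ U := by gcongr
      _ = |C| * 2 ^ U * (x / L ^ U) := by rw [div_pow]; field_simp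
      _ ≤ |C| * 2 ^ U * (2 * (z / L ^ 3)) := by gcongr
      _ ≤ e / 8 * (z / L ^ 2) := by
        have : e / 8 * (z / L ^ 2) - |C| * 2 ^ U * (2 * (z / L ^ 3)) =
            (z / L ^ 3) * (e * L - 16 * |C| * 2 ^ U) / 8 := by field_simp; ring
        have b5 : 0 ≤ (z / L ^ 3) * (e * L - 16 * |C| * 2 ^ U) / 8 := by
          apply div_nonneg _ (by norm_num)
          exact mul_nonneg (by positivity) (by linarith)
        linarith
  have eN := abs_le.1 (err N (by omega) hN1 hlN)
  have eM := abs_le.1 (err M hM3 (by linarith) hlM)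
  -- the main term
  have hsub := lis_sub M N (by omega) hMN
  have lo := sum_lower M N hMN L (fun n hn => by
    rw [mem_Ioc] at hn
    have n1 : (1 : ℝ) < n := by exact_mod_cast (by omega : 1 < n)
    have n2 : (n : ℝ) ≤ x := le_trans (by exact_mod_cast hn.2) hN1
    exact ⟨Real.log_pos n1, Real.log_le_log (by linarith) n2⟩)
  obtain ⟨d, hd⟩ : ∃ d, d = e / 8 := ⟨_, rfl⟩
  have hd0 : 0 < d := by rw [hd]; positivity
  have hd1 : d ≤ 1 / 8 := by rw [hd]; linarith
  have hLd : 0 < L - d := by linarith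
  have hlxz : L - d ≤ Real.log (x - z) := by
    have h1 : Real.log (x - z) = L + Real.log (1 - z / x) := by
      rw [hL, ← Real.log_mul hx0.ne' (by
        have : z / x ≤ 1 / 16 := by rw [div_le_iff₀ hx0]; linarith
        linarith)]
      congr 1
      field_simp
    have h2 : z / x ≤ 1 / 16 := by rw [div_le_iff₀ hx0]; linarith
    have h3 : 0 < 1 - z / x := by linarith
    have h4 : 1 - (1 - z / x)⁻¹ ≤ Real.log (1 - z / x) := Real.one_sub_inv_le_log_of_pos h3
    have h5 : (1 - z / x)⁻¹ ≤ 1 + d := by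
      rw [inv_le_comm₀ h3 (by linarith)]
      have h6 : z / x ≤ e / 16 := by rw [div_le_iff₀ hx0]; linarith
      have h7 : (1 + d)⁻¹ ≤ 1 - d / 2 := by
        rw [inv_le_iff_one_le_mul₀ (by linarith)]
        nlinarith
      have h8 : d / 2 = e / 16 := by rw [hd]; ring
      linarith
    linarith
  have up := sum_upper M N hMN (L - d) hLd (fun n hn => by
    rw [mem_Ioc] at hn
    have n1 : (M : ℝ) + 1 ≤ n := by exact_mod_cast hn.1
    have n2 : Real.log (x - z) ≤ Real.log n := Real.log_le_log (by linarith) (by linarith)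
    linarith)
  rw [← hsub] at lo up
  have hzL2 : 0 < z / L ^ 2 := by positivity
  have hsz : e / L * (z / L) = e * (z / L ^ 2) := by field_simp
  have lo2 : z / L - e / 4 * (z / L ^ 2) ≤ ((N : ℝ) - M) * (1 / L) := by
    have c1 : z - 1 ≤ (N : ℝ) - M := by linarith
    have c2 : (z - 1) * (1 / L) ≤ ((N : ℝ) - M) * (1 / L) :=
      mul_le_mul_of_nonneg_right c1 (by positivity)
    refine le_trans ?_ c2
    have c3 : (z - 1) * (1 / L) - (z / L - e / 4 * (z / L ^ 2)) = (e * z - 4 * L) / (4 * L ^ 2) := by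
      field_simp
      ring
    have c4 : 0 ≤ (e * z - 4 * L) / (4 * L ^ 2) := div_nonneg (by linarith) (by positivity)
    linarith
  have up2 : ((N : ℝ) - M) * (1 / (L - d)) ≤ z / L + e / 2 * (z / L ^ 2) := by
    have c1 : (N : ℝ) - M ≤ z + 1 := by linarith
    rw [mul_one_div, div_le_iff₀ hLd]
    refine c1.trans ?_
    have c2 : (z / L + e / 2 * (z / L ^ 2)) * (L - d) - (z + 1) =
        (e / 2 * z * (L - d) - d * z * L - L ^ 2) / L ^ 2 := by
      field_simp
      ring
    have c3 : 0 ≤ (e / 2 * z * (L - d) - d * z * L - L ^ 2) / L ^ 2 := by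
      apply div_nonneg _ (by positivity)
      have c4 : d * z * L = e * z * L / 8 := by rw [hd]; ring
      have c5 : L ≤ 2 * (L - d) := by linarith
      have c6 : 8 * L * L ≤ e * z * L := mul_le_mul_of_nonneg_right hzL hL0.le
      have c7 : e * z * L ≤ e * z * (2 * (L - d)) := mul_le_mul_of_nonneg_left c5 (by positivity)
      nlinarith
    linarith
  rw [hsz, abs_le]
  have p1 : e / 8 * (z / L ^ 2) = e * (z / L ^ 2) / 8 := by ring
  have p2 : e / 4 * (z / L ^ 2) = e * (z / L ^ 2) / 4 := by ring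
  have p3 : e / 2 * (z / L ^ 2) = e * (z / L ^ 2) / 2 := by ring
  have p4 : 0 < e * (z / L ^ 2) := by positivity
  constructor
  · linarith [eN.1, eM.2]
  · linarith [eN.2, eM.1]

/-- The mean number of displaced primes from the number of primes. -/
theorem core {A e x y C hh : ℝ} {N : ℕ} (hA : 0 < A) (he0 : 0 < e) (he1 : 4 * e ≤ 1)
    (hN : Real.exp A ≤ N) (hC : ∀ p : ℕ, p < N → (p : ℝ) + amp A p ≤ C) (lC : C ≤ x)
    (l1 : 2 ≤ Real.log x) (l2 : 2 ≤ e * Real.log x ^ A) (l3 : 2 * Real.exp A ≤ x) (l5 : 4 ≤ x)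
    (hy : 0 < y) (hhd : hh = x / Real.log x ^ A) (hy1 : (y + 1) * Real.log x ≤ e * hh)
    (hcnt1 : |(((Finset.range (⌊x⌋₊ + 1)).filter
      fun p : ℕ => p.Prime ∧ x - (1 - e) * hh < p).card : ℝ) - (1 - e) * hh / Real.log x| ≤
        e * ((1 - e) * hh / Real.log x))
    (hcnt2 : |(((Finset.range (⌊x⌋₊ + 1)).filter
      fun p : ℕ => p.Prime ∧ x - hh < p).card : ℝ) - hh / Real.log x| ≤ e * (hh / Real.log x)) :
    |∑ p ∈ prm (x + y), prb A x y p - y / Real.log x| ≤ 4 * e * (y / Real.log x) ∧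
      ∀ p ∈ prm (x + y), 0 ≤ prb A x y p ∧ prb A x y p ≤ y / (hh / 2) := by
  have hge2 : ∀ p : ℕ, p.Prime → 2 ≤ p := fun p hp => hp.two_le
  have hx0 : 0 < x := by linarith
  have hL0 : 0 < Real.log x := by linarith
  obtain ⟨L, hL⟩ : ∃ L, L = Real.log x := ⟨_, rfl⟩
  rw [← hL] at l1 l2 hL0 hy1 hhd hcnt1 hcnt2 ⊢
  have hLA : 0 < L ^ A := Real.rpow_pos_of_pos hL0 A
  have hh0 : 0 < hh := by rw [hhd]; exact div_pos hx0 hLA
  have hhx : hh * L ^ A = x := by rw [hhd]; exact div_mul_cancel₀ _ hLA.ne'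
  -- `hh ≤ (e / 2) x`
  have hh1 : hh ≤ e / 2 * x := by
    have : hh * 2 ≤ hh * (e * L ^ A) := mul_le_mul_of_nonneg_left l2 hh0.le
    have h2 : hh * (e * L ^ A) = e * x := by rw [← hhx]; ring
    linarith
  have hh2 : hh ≤ x / 2 := by nlinarith
  have hy2 : 2 * y ≤ e * hh := by nlinarith
  -- large `p`
  have hbig : ∀ p : ℕ, x - hh < p → Real.exp A ≤ p := by
    intro p hp
    have : x / 2 < p := by linarith
    linarith
  -- `amp` for `p ≤ x`
  have hampx : ∀ p : ℕ, Real.exp A ≤ p → (p : ℝ) ≤ x → amp A p ≤ hh := by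
    intro p hp hpx
    have := f_mono hA hp hpx
    rw [← hL, ← hhd] at this
    exact this
  have hampx' : ∀ p : ℕ, Real.exp A ≤ p → x ≤ (p : ℝ) → hh ≤ amp A p := by
    intro p hp hpx
    have := f_mono hA (by linarith : Real.exp A ≤ x) hpx
    rw [← hL, ← hhd] at this
    exact this
  have hamplo : ∀ p : ℕ, x - hh < p → (p : ℝ) ≤ x → (1 - e / 2) * hh ≤ amp A p := by
    intro p hp hpx
    have hp0 : 0 < (p : ℝ) := lt_of_lt_of_le (Real.exp_pos A) (hbig p hp)
    have hlp : 0 < Real.log p := by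
      refine Real.log_pos ?_
      have := Real.add_one_le_exp A
      have h2 := hbig p hp
      linarith
    have h1 : Real.log p ≤ L := by rw [hL]; exact Real.log_le_log hp0 hpx
    have h2 : Real.log p ^ A ≤ L ^ A := Real.rpow_le_rpow hlp.le h1 hA.le
    have h3 : (p : ℝ) / L ^ A ≤ amp A p :=
      div_le_div_of_nonneg_left hp0.le (Real.rpow_pos_of_pos hlp A) h2
    refine le_trans ?_ h3
    rw [le_div_iff₀ hLA]
    have h4 : (1 - e / 2) * hh * L ^ A = (1 - e / 2) * x := by rw [mul_assoc, hhx]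
    rw [h4]
    linarith
  have hzero : ∀ p : ℕ, (p : ℝ) ≤ x - hh → prb A x y p = 0 := by
    intro p hp
    refine prb_zero A x y ?_
    by_cases hpN : p < N
    · exact le_trans (hC p hpN) lC
    · have h1 : (N : ℝ) ≤ p := by exact_mod_cast not_lt.1 hpN
      have h2 := hampx p (hN.trans h1) (by linarith)
      linarith
  have hc0 : 0 < (1 - e / 2) * hh := mul_pos (by linarith) hh0
  constructor
  · -- the counts
    obtain ⟨F₁, hF₁⟩ : ∃ F, F = (Finset.range (⌊x⌋₊ + 1)).filter
      fun p : ℕ => p.Prime ∧ x - (1 - e) * hh < p := ⟨_, rfl⟩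
    obtain ⟨F₂, hF₂⟩ : ∃ F, F = (Finset.range (⌊x⌋₊ + 1)).filter
      fun p : ℕ => p.Prime ∧ x - hh < p := ⟨_, rfl⟩
    rw [← hF₁] at hcnt1
    rw [← hF₂] at hcnt2
    have hmem : ∀ p : ℕ, p ∈ Finset.range (⌊x⌋₊ + 1) ↔ (p : ℝ) ≤ x := by
      intro p
      rw [Finset.mem_range, Nat.lt_succ_iff, Nat.le_floor_iff hx0.le]
    have hmemy : ∀ p : ℕ, p ∈ prm (x + y) ↔ (p : ℝ) ≤ x + y ∧ p.Prime := by
      intro p
      unfold prm
      rw [Finset.mem_filter, Finset.mem_range, Nat.lt_succ_iff, Nat.le_floor_iff (by linarith)]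
    -- lower bound
    have hlow : (1 - e) ^ 2 * (y / L) ≤ ∑ p ∈ prm (x + y), prb A x y p := by
      have h1 : ∑ p ∈ F₁, prb A x y p ≤ ∑ p ∈ prm (x + y), prb A x y p := by
        refine Finset.sum_le_sum_of_subset_of_nonneg ?_ (fun p _ _ => prb_nonneg A x y p)
        intro p hp
        rw [hF₁, Finset.mem_filter, hmem] at hp
        rw [hmemy]
        exact ⟨by linarith [hp.1], hp.2.1⟩
      have h2 : (F₁.card : ℝ) * (y / hh) ≤ ∑ p ∈ F₁, prb A x y p := by
        rw [← nsmul_eq_mul]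
        refine Finset.card_nsmul_le_sum _ _ _ ?_
        intro p hp
        rw [hF₁, Finset.mem_filter, hmem] at hp
        obtain ⟨hpx, hpp, hpl⟩ := hp
        have hpl' : x - hh < p := by nlinarith
        refine prb_full A x y (hge2 p hpp) hy.le hpx ?_ (hampx p (hbig p hpl') hpx)
        have := hamplo p hpl' hpx
        nlinarith
      have h3 : (1 - e) * ((1 - e) * hh / L) ≤ F₁.card := by
        have := (abs_le.1 hcnt1).1
        linarith
      calc (1 - e) ^ 2 * (y / L) = (1 - e) * ((1 - e) * hh / L) * (y / hh) := by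
            field_simp
        _ ≤ F₁.card * (y / hh) := mul_le_mul_of_nonneg_right h3 (by positivity)
        _ ≤ _ := h2.trans h1
    -- upper bound
    have hup : ∑ p ∈ prm (x + y), prb A x y p ≤ (1 + 3 * e) * (y / L) := by
      rw [← Finset.sum_filter_add_sum_filter_not (prm (x + y)) (fun p : ℕ => (p : ℝ) ≤ x)]
      have h1 : ∑ p ∈ (prm (x + y)).filter (fun p : ℕ => (p : ℝ) ≤ x), prb A x y p =
          ∑ p ∈ F₂, prb A x y p := by
        symm
        refine Finset.sum_subset ?_ ?_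
        · intro p hp
          rw [hF₂, Finset.mem_filter, hmem] at hp
          rw [Finset.mem_filter, hmemy]
          exact ⟨⟨by linarith [hp.1], hp.2.1⟩, hp.1⟩
        · intro p hp hp'
          rw [Finset.mem_filter, hmemy] at hp
          rw [hF₂, Finset.mem_filter, hmem] at hp'
          refine hzero p ?_
          by_contra hlt
          exact hp' ⟨hp.2, hp.1.2, not_le.1 hlt⟩
      have h2 : ∑ p ∈ F₂, prb A x y p ≤ F₂.card * (y / ((1 - e / 2) * hh)) := by
        rw [← nsmul_eq_mul]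
        refine Finset.sum_le_card_nsmul _ _ _ ?_
        intro p hp
        rw [hF₂, Finset.mem_filter, hmem] at hp
        obtain ⟨hpx, hpp, hpl⟩ := hp
        exact prb_le A x y (hge2 p hpp) hy.le hc0 (hamplo p hpl hpx)
      have h3 : (F₂.card : ℝ) ≤ (1 + e) * (hh / L) := by
        have := (abs_le.1 hcnt2).2
        linarith
      have h4 : ∑ p ∈ (prm (x + y)).filter (fun p : ℕ => ¬ (p : ℝ) ≤ x), prb A x y p ≤
          ((prm (x + y)).filter (fun p : ℕ => ¬ (p : ℝ) ≤ x)).card * (y / hh) := by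
        rw [← nsmul_eq_mul]
        refine Finset.sum_le_card_nsmul _ _ _ ?_
        intro p hp
        rw [Finset.mem_filter, hmemy, not_le] at hp
        have h5 : Real.exp A ≤ p := by linarith [hp.2]
        exact prb_le A x y (hge2 p hp.1.2) hy.le hh0 (hampx' p h5 hp.2.le)
      have h5 : (((prm (x + y)).filter (fun p : ℕ => ¬ (p : ℝ) ≤ x)).card : ℝ) ≤ y + 1 := by
        have h6 : (prm (x + y)).filter (fun p : ℕ => ¬ (p : ℝ) ≤ x) ⊆ Finset.Ioc ⌊x⌋₊ ⌊x + y⌋₊ := by
          intro p hp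
          rw [Finset.mem_filter, hmemy, not_le] at hp
          rw [Finset.mem_Ioc]
          refine ⟨?_, Nat.le_floor hp.1.1⟩
          exact (Nat.floor_lt hx0.le).2 hp.2
        have h7 := Finset.card_le_card h6
        rw [Nat.card_Ioc] at h7
        have h8 : (((prm (x + y)).filter (fun p : ℕ => ¬ (p : ℝ) ≤ x)).card : ℝ) ≤
            ((⌊x + y⌋₊ - ⌊x⌋₊ : ℕ) : ℝ) := by exact_mod_cast h7
        rw [Nat.cast_sub (Nat.floor_mono (by linarith))] at h8
        have h9 := Nat.floor_le (by linarith : (0 : ℝ) ≤ x + y)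
        have h10 := Nat.lt_floor_add_one x
        linarith
      have hyh : 0 ≤ y / hh := by positivity
      have h6 : (F₂.card : ℝ) * (y / ((1 - e / 2) * hh)) ≤ (1 + 2 * e) * (y / L) := by
        calc (F₂.card : ℝ) * (y / ((1 - e / 2) * hh)) ≤
              (1 + e) * (hh / L) * (y / ((1 - e / 2) * hh)) :=
              mul_le_mul_of_nonneg_right h3 (by positivity)
          _ = (1 + e) / (1 - e / 2) * (y / L) := by
              have : (1 - e / 2) ≠ 0 := by linarith
              field_simp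
          _ ≤ (1 + 2 * e) * (y / L) := by
              refine mul_le_mul_of_nonneg_right ?_ (by positivity)
              rw [div_le_iff₀ (by linarith)]
              nlinarith
      have h7 : (((prm (x + y)).filter (fun p : ℕ => ¬ (p : ℝ) ≤ x)).card : ℝ) * (y / hh) ≤
          e * (y / L) := by
        calc (((prm (x + y)).filter (fun p : ℕ => ¬ (p : ℝ) ≤ x)).card : ℝ) * (y / hh) ≤
              (y + 1) * (y / hh) := mul_le_mul_of_nonneg_right h5 hyh
          _ = ((y + 1) * L) * (y / (hh * L)) := by field_simp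
          _ ≤ (e * hh) * (y / (hh * L)) := mul_le_mul_of_nonneg_right hy1 (by positivity)
          _ = e * (y / L) := by field_simp
      rw [h1]
      linarith
    have hyL : 0 < y / L := div_pos hy hL0
    rw [abs_le]
    constructor
    · have : (1 - 2 * e) * (y / L) ≤ (1 - e) ^ 2 * (y / L) :=
        mul_le_mul_of_nonneg_right (by nlinarith) hyL.le
      nlinarith
    · nlinarith
  · intro p hp
    refine ⟨prb_nonneg A x y p, ?_⟩
    unfold prm at hp
    rw [Finset.mem_filter] at hp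
    by_cases hlt : (p : ℝ) ≤ x - hh
    · rw [hzero p hlt]
      positivity
    · rw [not_le] at hlt
      have h1 : (1 - e / 2) * hh ≤ amp A p := by
        rcases le_total (p : ℝ) x with hpx | hpx
        · exact hamplo p hlt hpx
        · exact le_trans (by nlinarith) (hampx' p (hbig p hlt) hpx)
      have h2 : hh / 2 ≤ (1 - e / 2) * hh := by nlinarith
      exact prb_le A x y (hge2 p hp.2) hy.le (by positivity) (h2.trans h1)

/-- the sizes which are needed -/
theorem large2 {A e C : ℝ} (hA : 1 < A) (he : 0 < e) : ∀ᶠ x : ℝ in atTop,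
    2 ≤ Real.log x ∧ 2 ≤ e * Real.log x ^ (A - 1) ∧ 2 * Real.exp A ≤ x ∧ C ≤ x ∧ 4 ≤ x ∧
      2 * Real.log x ^ (A + 7) ≤ e * x := by
  have h1 : ∀ᶠ x : ℝ in atTop, 2 ≤ Real.log x := Real.tendsto_log_atTop.eventually_ge_atTop 2
  have h2 : ∀ᶠ x : ℝ in atTop, 2 / e ≤ Real.log x ^ (A - 1) :=
    ((tendsto_rpow_atTop (by linarith)).comp Real.tendsto_log_atTop).eventually_ge_atTop (2 / e)
  have h3 := (isLittleO_log_rpow_rpow_atTop (A + 7) (zero_lt_one)).bound (half_pos he)
  filter_upwards [h1, h2, eventually_ge_atTop (2 * Real.exp A), eventually_ge_atTop C,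
    eventually_ge_atTop 4, h3] with x h1 h2 h3 h4 h5 h6
  refine ⟨h1, ?_, h3, h4, h5, ?_⟩
  · rw [div_le_iff₀ he] at h2
    linarith
  · rw [Real.rpow_one, Real.norm_of_nonneg (by linarith : (0 : ℝ) ≤ x),
      Real.norm_of_nonneg (Real.rpow_nonneg (by linarith) _)] at h6
    linarith

theorem t_PREC : S_PREC := by
  intro A ε hA1 hε
  have hA : 0 < A := by linarith
  obtain ⟨e, he⟩ : ∃ e, e = min ε 1 / 4 := ⟨_, rfl⟩
  have he0 : 0 < e := by rw [he]; exact div_pos (lt_min hε one_pos) (by norm_num)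
  have he1 : 4 * e ≤ 1 := by rw [he]; linarith [min_le_right ε 1]
  have heε : 4 * e ≤ ε := by rw [he]; linarith [min_le_left ε 1]
  obtain ⟨X₁, hX₁⟩ := primes hA he0 (by linarith)
  obtain ⟨N, hN⟩ : ∃ N : ℕ, Real.exp A ≤ N := exists_nat_ge _
  obtain ⟨C, hC⟩ : ∃ C : ℝ, ∀ p : ℕ, p < N → (p : ℝ) + amp A p ≤ C := by
    refine ⟨∑ p ∈ Finset.range N, ((p : ℝ) + amp A p), fun p hp => ?_⟩
    exact Finset.single_le_sum (f := fun p : ℕ => (p : ℝ) + amp A p)
      (fun q _ => add_nonneg (Nat.cast_nonneg q) (amp_nonneg A q)) (Finset.mem_range.2 hp)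
  obtain ⟨X₂, hX₂⟩ := eventually_atTop.1 (large2 (C := max C X₁) hA1 he0)
  refine ⟨X₂, fun x y hx hy hy3 => ?_⟩
  obtain ⟨l1, l2, l3, l4, l5, l6⟩ := hX₂ x hx
  have lC : C ≤ x := le_trans (le_max_left _ _) l4
  have lX : X₁ ≤ x := le_trans (le_max_right _ _) l4
  have hx0 : 0 < x := by linarith
  have hL0 : 0 < Real.log x := by linarith
  have hLA : 0 < Real.log x ^ A := Real.rpow_pos_of_pos hL0 A
  obtain ⟨hh, hhd⟩ : ∃ hh, hh = x / Real.log x ^ A := ⟨_, rfl⟩
  have hh0 : 0 < hh := by rw [hhd]; exact div_pos hx0 hLA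
  have hhx : hh * Real.log x ^ A = x := by rw [hhd]; exact div_mul_cancel₀ _ hLA.ne'
  have heL0 : 0 < e / Real.log x := div_pos he0 hL0
  have heL1 : e / Real.log x ≤ e / 2 := by
    exact div_le_div_of_nonneg_left he0.le (by norm_num) l1
  have hpow7 : 2 * Real.log x ^ 7 ≤ e * hh := by
    rw [Real.rpow_add hL0] at l6
    have e7 : Real.log x ^ (7 : ℝ) = Real.log x ^ 7 := by
      rw [← Real.rpow_natCast]; norm_num
    rw [e7] at l6
    refine le_of_mul_le_mul_right ?_ hLA
    calc 2 * Real.log x ^ 7 * Real.log x ^ A = 2 * (Real.log x ^ A * Real.log x ^ 7) := by ring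
      _ ≤ e * x := l6
      _ = e * hh * Real.log x ^ A := by rw [mul_assoc, hhx]
  obtain ⟨c1, c2⟩ := core (e := e / Real.log x) (x := x) (y := y) (C := C) (hh := hh) (N := N) hA
    heL0 (by linarith) hN hC lC l1 (by
      have : Real.log x ^ A = Real.log x ^ (A - 1) * Real.log x := by
        rw [← Real.rpow_add_one hL0.ne']; congr 1; ring
      rw [this]
      have h2 : e / Real.log x * (Real.log x ^ (A - 1) * Real.log x) =
          e * Real.log x ^ (A - 1) := by field_simp
      rw [h2]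
      exact l2) l3 l5 hy hhd (by
      rw [div_mul_eq_mul_div, le_div_iff₀ hL0]
      have h1 : 1 ≤ Real.log x ^ 3 := one_le_pow₀ (by linarith)
      have h2 : (y + 1) * Real.log x * Real.log x ≤
          2 * Real.log x ^ 3 * Real.log x * Real.log x := by
        have : y + 1 ≤ 2 * Real.log x ^ 3 := by linarith
        gcongr
      have h3 : 2 * Real.log x ^ 3 * Real.log x * Real.log x = 2 * Real.log x ^ 5 := by ring
      have h4 : Real.log x ^ 5 ≤ Real.log x ^ 7 := pow_le_pow_right₀ (by linarith) (by norm_num)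
      linarith) (by
      refine hX₁ x ((1 - e / Real.log x) * hh) lX ?_ ?_
      · rw [← hhd]; nlinarith
      · rw [← hhd]; nlinarith) (by
      refine hX₁ x hh lX ?_ ?_
      · rw [← hhd]; linarith
      · rw [← hhd])
  constructor
  · refine c1.trans ?_
    have h1 : 4 * (e / Real.log x) * (y / Real.log x) = 4 * e * (y / Real.log x ^ 2) := by
      field_simp
    rw [h1]
    exact mul_le_mul_of_nonneg_right heε (by positivity)
  · intro p hp
    refine ⟨(c2 p hp).1, (c2 p hp).2.trans ?_⟩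
    rw [div_le_div_iff₀ (by positivity) (by positivity)]
    have h1 : y * Real.log x ^ 4 ≤ Real.log x ^ 3 * Real.log x ^ 4 := by gcongr
    have h2 : Real.log x ^ 3 * Real.log x ^ 4 = Real.log x ^ 7 := by ring
    have h3 : e * hh ≤ hh := by nlinarith
    linarith

end Pool.Agent.U603.DP
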